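import Pool.Agent.Lib.MP_f80667_ag.Qb.Over
import Pool.Agent.Lib.MP_f80667_ag.Fa.Lift

/-!
The push-forward of the divisor of a function `θ` on a double cover, when `θ σ(θ) = g` is a function
on the base.
-/

open scoped LinearAlgebra.Projectivization

namespace Qb

open ZC Fa

universe u

section cmp

variable {k M' Ω : Type u} [Field k] [Field M'] [Field Ω] [Algebra k M'] [Algebra k Ω]

/-- The composition of a place with an automorphism. -/
noncomputable def cmp (σ : M' ≃ₐ[k] M') (w : Place k M' Ω) : Place k M' Ω where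
  V := w.V.comap (σ : M' →+* M')
  ne_top := by
    intro h
    apply w.ne_top
    rw [eq_top_iff]
    intro y _
    have h1 : σ.symm y ∈ w.V.comap (σ : M' →+* M') := by
      rw [h]
      exact ValuationSubring.mem_top _
    have h2 : σ (σ.symm y) ∈ w.V := h1
    rwa [σ.apply_symm_apply] at h2
  mem := by
    intro a
    change σ (algebraMap k M' a) ∈ w.V
    rw [σ.commutes]
    exact w.mem a
  res := w.res.comp
    { toFun := fun x => ⟨σ x, x.2⟩
      map_one' := by ext; simp
      map_zero' := by ext; simp
      map_mul' := by intro x y; ext; simp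
      map_add' := by intro x y; ext; simp }
  res_k := by
    intro a
    rw [← w.res_k a]
    change w.res _ = _
    congr 1
    ext
    exact σ.commutes a
  res_zero := by
    intro x hx
    change w.res _ = 0
    rw [Fa.res_eq_zero_iff, ValuationSubring.mem_nonunits_iff_or]
    by_cases hx0 : x = 0
    · left
      simp [hx0]
    right
    intro h
    apply hx
    have hx1 : (x : M') ≠ 0 := fun h => hx0 (by ext; exact h)
    refine ⟨⟨x, ⟨(x : M')⁻¹, ?_⟩, ?_, ?_⟩, rfl⟩
    · change σ (x : M')⁻¹ ∈ w.V
      rw [map_inv₀]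
      exact h
    · ext
      simp [hx1]
    · ext
      simp [hx1]

theorem mem_cmp (σ : M' ≃ₐ[k] M') (w : Place k M' Ω) (x : M') : x ∈ (cmp σ w).V ↔ σ x ∈ w.V :=
  Iff.rfl

theorem nonunits_cmp (σ : M' ≃ₐ[k] M') (w : Place k M' Ω) (x : M') :
    x ∈ (cmp σ w).V.nonunits ↔ σ x ∈ w.V.nonunits := by
  rw [ValuationSubring.mem_nonunits_iff_or, ValuationSubring.mem_nonunits_iff_or, mem_cmp,
    map_inv₀, map_eq_zero_iff _ σ.injective]

theorem cmp_injective (σ : M' ≃ₐ[k] M') :
    Function.Injective (cmp σ : Place k M' Ω → Place k M' Ω) := by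
  intro w w' h
  have hV : ∀ x, x ∈ w.V ↔ x ∈ w'.V := by
    intro x
    have h1 : σ.symm x ∈ (cmp σ w).V ↔ σ.symm x ∈ (cmp σ w').V := by rw [h]
    rwa [mem_cmp, mem_cmp, σ.apply_symm_apply] at h1
  refine Place.ext' (SetLike.ext hV) fun x hx hx' => ?_
  have key : ∀ (v v' : Place k M' Ω) (h : v = v') (y : M') (h1 : y ∈ v.V) (h2 : y ∈ v'.V),
      v.res ⟨y, h1⟩ = v'.res ⟨y, h2⟩ := by
    rintro v _ rfl y h1 h2
    rfl
  have h1 : σ.symm x ∈ (cmp σ w).V := by
    rw [mem_cmp, σ.apply_symm_apply]
    exact hx
  have h2 : σ.symm x ∈ (cmp σ w').V := by rw [← h]; exact h1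
  have h3 := key _ _ h (σ.symm x) h1 h2
  have h4 : (cmp σ w).res ⟨σ.symm x, h1⟩ = w.res ⟨x, hx⟩ := by
    change w.res _ = _
    congr 1
    ext
    exact σ.apply_symm_apply x
  have h5 : (cmp σ w').res ⟨σ.symm x, h2⟩ = w'.res ⟨x, hx'⟩ := by
    change w'.res _ = _
    congr 1
    ext
    exact σ.apply_symm_apply x
  rw [← h4, ← h5, h3]

/-- The order at the composition. -/
theorem cmp_ord (σ : M' ≃ₐ[k] M') {w : Place k M' Ω} {x : M'} {m : ℤ} (h : (cmp σ w).IsOrd x m) :
    w.IsOrd (σ x) m := by
  obtain ⟨π, u, h0, h1, hu, hu', hu0, rfl⟩ := h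
  refine ⟨σ π, σ u, ?_, fun y => ?_, hu, ?_, ?_, ?_⟩
  · rwa [Ne, map_eq_zero_iff _ σ.injective]
  · have h2 := h1 (σ.symm y)
    rw [nonunits_cmp, mem_cmp, map_div₀, σ.apply_symm_apply] at h2
    exact h2
  · rw [← map_inv₀]
    exact hu'
  · rwa [Ne, map_eq_zero_iff _ σ.injective]
  · rw [map_mul, map_zpow₀]

end cmp

section main

variable {k M M' Ω : Type u} [Field k] [Field M] [Field M'] [Field Ω] [Algebra k M] [Algebra k M']
  [Algebra k Ω] [Algebra M M'] [IsScalarTower k M M']

/-- The value of a point at the restriction of a place. -/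
theorem val_restr (alg : Algebra.IsAlgebraic M M') {w' : Place k M' Ω} {N : ℕ} {p : Fin N → M}
    {x : ℙ Ω (Fin N → Ω)} (h : (restr alg w').IsVal p x) :
    w'.IsVal (fun i => algebraMap M M' (p i)) x := by
  obtain ⟨c, hc, h0, rfl⟩ := h
  have h1 : ∀ i, algebraMap M M' c * algebraMap M M' (p i) ∈ w'.V := by
    intro i
    rw [← map_mul]
    exact hc i
  have h2 : ∀ i, w'.res ⟨algebraMap M M' c * algebraMap M M' (p i), h1 i⟩ =
      (restr alg w').res ⟨c * p i, hc i⟩ := by
    intro i
    rw [restr_res]
    congr 1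
    ext
    exact (map_mul _ _ _).symm
  refine ⟨algebraMap M M' c, h1, ?_, ?_⟩
  · intro h3
    apply h0
    funext i
    rw [← h2]
    exact congrFun h3 i
  · congr 1
    funext i
    exact (h2 i).symm

theorem restr_cmp (alg : Algebra.IsAlgebraic M M') (σ : M' ≃ₐ[M] M') (w' : Place k M' Ω) :
    restr alg (cmp (σ.restrictScalars k) w') = restr alg w' := by
  have h1 : ∀ a : M, σ.restrictScalars k (algebraMap M M' a) = algebraMap M M' a :=
    fun a => σ.commutes a
  refine Place.ext' (SetLike.ext fun a => ?_) fun a h h' => ?_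
  · rw [mem_restr, mem_restr, mem_cmp, h1]
  · rw [restr_res, restr_res]
    change w'.res _ = w'.res _
    congr 1
    ext
    exact h1 a

/-- **The norm trick.** -/
theorem lift_two [CharZero k] [IsAlgClosed Ω] (hM : IsFunField k M) (hM' : IsFunField k M')
    [FiniteDimensional M M'] (h2 : Module.finrank M M' = 2) (σ : M' ≃ₐ[M] M') {θ : M'} {g : M}
    (hg : g ≠ 0) (hθ : θ * σ θ = algebraMap M M' g) {N n : ℕ} {w : Fin N → M} (hw : w ≠ 0)
    {z : ℙ Ω (Fin N → Ω) →₀ ℤ} (hz : IsPush k Ω g w z) {p : Fin n → M'} (hp : p ≠ 0) :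
    ∃ y : Pt2 Ω N n →₀ ℤ, pushW Ω y = z ∧
      IsPush2 k Ω θ (fun i => algebraMap M M' (w i)) p y := by
  classical
  have alg : Algebra.IsAlgebraic M M' := inferInstance
  have hgM : algebraMap M M' g ≠ 0 := (map_ne_zero _).2 hg
  have hθ0 : θ ≠ 0 := by
    rintro rfl
    rw [zero_mul] at hθ
    exact hgM hθ.symm
  obtain ⟨S, m, x, h3, h4, rfl⟩ := hz
  obtain ⟨S0, hS0⟩ := exists_supp (Ω := Ω) hM' hθ0
  choose pi hpi using fun v : Place k M Ω => exists_unif hM v
  choose T hT hTsum using fun v : Place k M Ω => sum_over (M' := M') hM hM' alg (hpi v)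
  have hval : ∀ v : Place k M Ω, ∃ y, v.IsVal w y ∧ (v ∈ S → y = x v) := by
    intro v
    by_cases hv : v ∈ S
    · exact ⟨x v, (h4 v hv).2, fun _ => rfl⟩
    · obtain ⟨y, hy⟩ := v.exists_isVal hw
      exact ⟨y, hy, fun h => absurd h hv⟩
  choose xx hxx hxx' using hval
  choose mm hmm using fun v : Place k M Ω => (hpi v).isOrd hM hg
  have hmmS : ∀ v ∈ S, mm v = m v := fun v hv => (hmm v).unique rfl (h4 v hv).1
  have hmmS' : ∀ v, v ∉ S → mm v = 0 := fun v hv => (hmm v).eq_zero (h3 v hv).1 (h3 v hv).2
  choose pi' hpi' using fun v : Place k M' Ω => exists_unif hM' v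
  choose mt hmt using fun v : Place k M' Ω => (hpi' v).isOrd hM' hθ0
  choose yv hyv using fun v : Place k M' Ω => v.exists_isVal hp
  choose ee hee using fun v : Place k M' Ω =>
    (hpi' v).isOrd hM' ((map_ne_zero (algebraMap M M')).2 (hpi (restr alg v)).1)
  let S1 : Finset (Place k M Ω) := S ∪ S0.image (restr alg)
  let S' : Finset (Place k M' Ω) := S1.biUnion T
  have hS' : ∀ v', v' ∈ S' ↔ restr alg v' ∈ S1 := by
    intro v'
    rw [Finset.mem_biUnion]
    constructor
    · rintro ⟨v, hv, hv'⟩
      rw [hT] at hv'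
      rwa [hv']
    · intro h
      exact ⟨_, h, (hT _ _).2 rfl⟩
  -- the cycle
  refine ⟨∑ v' ∈ S', Finsupp.single ((xx (restr alg v'), yv v') : Pt2 Ω N n) (mt v'), ?_,
    S', mt, fun v' => (xx (restr alg v'), yv v'), ?_, ?_, rfl⟩
  · rw [map_sum]
    simp only [pushW_single]
    -- the conjugate function
    have hconj : ∑ v' ∈ S', Finsupp.single (xx (restr alg v')) (mt v') =
        ∑ v' ∈ S', Finsupp.single (xx (restr alg v')) (mt (cmp (σ.restrictScalars k) v')) := by
      symm
      refine Finset.sum_bij' (fun v' _ => cmp (σ.restrictScalars k) v')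
        (fun v' _ => cmp (σ.symm.restrictScalars k) v') ?_ ?_ ?_ ?_ ?_
      · intro v' hv'
        rw [hS', restr_cmp]
        exact (hS' v').1 hv'
      · intro v' hv'
        rw [hS', restr_cmp]
        exact (hS' v').1 hv'
      · intro v' _
        refine Place.ext' (SetLike.ext fun a => ?_) fun a h h' => ?_
        · rw [mem_cmp, mem_cmp]
          change σ (σ.symm a) ∈ _ ↔ _
          rw [σ.apply_symm_apply]
        · change v'.res _ = v'.res _
          congr 1
          ext
          exact σ.apply_symm_apply a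
      · intro v' _
        refine Place.ext' (SetLike.ext fun a => ?_) fun a h h' => ?_
        · rw [mem_cmp, mem_cmp]
          change σ.symm (σ a) ∈ _ ↔ _
          rw [σ.symm_apply_apply]
        · change v'.res _ = v'.res _
          congr 1
          ext
          exact σ.symm_apply_apply a
      · intro v' _
        rw [restr_cmp]
    have hsum : ∀ v', mt v' + mt (cmp (σ.restrictScalars k) v') =
        mm (restr alg v') * ee v' := by
      intro v'
      have h5 : v'.IsOrd (algebraMap M M' g) (mt v' + mt (cmp (σ.restrictScalars k) v')) := by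
        rw [← hθ]
        have h51 : v'.IsOrd (σ θ) (mt (cmp (σ.restrictScalars k) v')) :=
          cmp_ord (σ.restrictScalars k) (hmt _)
        exact ord_mul (hmt v') h51
      obtain ⟨e, u, hu, hu', hu0, he⟩ := (hpi (restr alg v')).exists_ord hM hg
      have h6 : (restr alg v').IsOrd g e := ⟨_, u, (hpi _).1, (hpi _).2, hu, hu', hu0, he⟩
      have h7 : mm (restr alg v') = e := (hmm _).unique rfl h6
      have h8 : v'.IsOrd (algebraMap M M' u) 0 := by
        refine ord_unit (hpi' v') hu ?_ ((map_ne_zero _).2 hu0)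
        rw [← map_inv₀]
        exact hu'
      have h9 : v'.IsOrd (algebraMap M M' g) (0 + e * ee v') := by
        rw [he, map_mul, map_zpow₀]
        exact ord_mul h8 (ord_zpow (hee v') e)
      rw [zero_add] at h9
      rw [h7]
      exact h5.unique rfl h9
    have h2z : (2 : ℤ) • ∑ v' ∈ S', Finsupp.single (xx (restr alg v')) (mt v') =
        (2 : ℤ) • ∑ v ∈ S, Finsupp.single (x v) (m v) := by
      calc (2 : ℤ) • ∑ v' ∈ S', Finsupp.single (xx (restr alg v')) (mt v')
          = ∑ v' ∈ S', Finsupp.single (xx (restr alg v')) (mt v') +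
            ∑ v' ∈ S', Finsupp.single (xx (restr alg v')) (mt v') := two_zsmul _
        _ = ∑ v' ∈ S', Finsupp.single (xx (restr alg v')) (mt v') +
            ∑ v' ∈ S', Finsupp.single (xx (restr alg v'))
              (mt (cmp (σ.restrictScalars k) v')) := congrArg₂ (· + ·) rfl hconj
        _ = ∑ v' ∈ S', Finsupp.single (xx (restr alg v')) (mm (restr alg v') * ee v') := by
            rw [← Finset.sum_add_distrib]
            refine Finset.sum_congr rfl fun v' _ => ?_
            rw [← Finsupp.single_add, hsum]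
        _ = ∑ v ∈ S1, ∑ v' ∈ T v, Finsupp.single (xx (restr alg v'))
              (mm (restr alg v') * ee v') := by
            refine Finset.sum_biUnion ?_
            intro v _ v2 _ hne
            rw [Function.onFun, Finset.disjoint_left]
            intro v' h5 h6
            rw [hT] at h5 h6
            exact hne (h5.symm.trans h6)
        _ = ∑ v ∈ S1, Finsupp.single (xx v) (mm v * 2) := by
            refine Finset.sum_congr rfl fun v _ => ?_
            have h5 : ∑ v' ∈ T v, ee v' = 2 := by
              have h6 := hTsum v ee fun v' hv' => ?_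
              · rw [h6, h2]
                rfl
              · rw [hT] at hv'
                have h7 := hee v'
                rwa [hv'] at h7
            rw [← h5, Finset.mul_sum]
            refine Eq.trans (Finset.sum_congr rfl fun v' hv' => ?_)
              (map_sum (Finsupp.singleAddHom (xx v)) (fun v' => mm v * ee v') (T v)).symm
            rw [hT] at hv'
            rw [hv']
            rfl
        _ = ∑ v ∈ S, Finsupp.single (xx v) (mm v * 2) := by
            symm
            refine Finset.sum_subset Finset.subset_union_left fun v _ hv => ?_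
            rw [hmmS' v hv, zero_mul, Finsupp.single_zero]
        _ = (2 : ℤ) • ∑ v ∈ S, Finsupp.single (x v) (m v) := by
            rw [Finset.smul_sum]
            refine Finset.sum_congr rfl fun v hv => ?_
            rw [hmmS v hv, hxx' v hv, Finsupp.smul_single, smul_eq_mul, mul_comm]
    exact smul_right_injective _ (two_ne_zero) h2z
  · intro v' hv'
    apply hS0
    intro h5
    apply hv'
    rw [hS']
    exact Finset.mem_union_right _ (Finset.mem_image_of_mem _ h5)
  · intro v' _
    exact ⟨hmt v', val_restr alg (hxx _), hyv v'⟩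

end main

end Qb
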