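import Pool.Agent.Lib.MP_f80667_ag.Dz.Main
import Pool.Agent.Lib.MP_f80667_ag.Fa.Ext
import Pool.Agent.Lib.MP_f80667_ag.Ct.Div

/-!
Orders of functions at places: existence, products, and the valuation ring is a discrete valuation
ring.
-/

open Polynomial

namespace Qb

open ZC Fa

universe u

variable {k E Ω : Type u} [Field k] [Field E] [Field Ω] [Algebra k E] [Algebra k Ω]

/-- `π` generates the maximal ideal of the valuation ring. -/
def Unif (w : Place k E Ω) (π : E) : Prop := π ≠ 0 ∧ ∀ x : E, x ∈ w.V.nonunits ↔ x / π ∈ w.V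

theorem Unif.mem_nonunits {w : Place k E Ω} {π : E} (h : Unif w π) : π ∈ w.V.nonunits := by
  rw [h.2, div_self h.1]
  exact w.V.one_mem

theorem Unif.mem {w : Place k E Ω} {π : E} (h : Unif w π) : π ∈ w.V :=
  w.V.nonunits_subset h.mem_nonunits

theorem _root_.ZC.Place.IsOrd.unif {w : Place k E Ω} {g : E} {m : ℤ} (h : w.IsOrd g m) :
    ∃ π, Unif w π := by
  obtain ⟨π, u, h0, h1, -⟩ := h
  exact ⟨π, h0, h1⟩

/-- Every function has an order if there is a uniformizer. -/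
theorem Unif.exists_ord (hE : IsFunField k E) {w : Place k E Ω} {π : E} (h : Unif w π) {g : E}
    (hg : g ≠ 0) : ∃ m : ℤ, ∃ u : E, u ∈ w.V ∧ u⁻¹ ∈ w.V ∧ u ≠ 0 ∧ g = u * π ^ m := by
  classical
  have key : ∀ c : E, c ≠ 0 → c ∈ w.V → ∃ m : ℤ, ∃ u : E, u ∈ w.V ∧ u⁻¹ ∈ w.V ∧ u ≠ 0 ∧
      c = u * π ^ m := by
    intro c hc hcV
    have hex := disc hE w h.1 h.2 hc
    let n := Nat.find hex
    have hn : c / π ^ n ∉ w.V := Nat.find_spec hex
    have hn0 : n ≠ 0 := by
      intro h0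
      rw [h0, pow_zero, div_one] at hn
      exact hn hcV
    obtain ⟨l, hl⟩ := Nat.exists_eq_succ_of_ne_zero hn0
    have hl1 : c / π ^ l ∈ w.V := by
      by_contra h3
      have := Nat.find_min' hex h3
      omega
    have hl2 : c / π ^ l ∉ w.V.nonunits := by
      rw [h.2, div_div, ← pow_succ]
      rw [hl] at hn
      exact hn
    have hl3 : c / π ^ l ≠ 0 := div_ne_zero hc (pow_ne_zero _ h.1)
    refine ⟨l, c / π ^ l, hl1, ?_, hl3, ?_⟩
    · by_contra h4
      exact hl2 ((ValuationSubring.mem_nonunits_iff_or _).2 (Or.inr h4))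
    · rw [zpow_natCast, div_mul_cancel₀ _ (pow_ne_zero _ h.1)]
  rcases w.V.mem_or_inv_mem g with h1 | h1
  · exact key g hg h1
  · obtain ⟨m, u, hu, hu', hu0, he⟩ := key g⁻¹ (inv_ne_zero hg) h1
    refine ⟨-m, u⁻¹, hu', by rwa [inv_inv], inv_ne_zero hu0, ?_⟩
    rw [zpow_neg, ← mul_inv, ← he, inv_inv]

theorem Unif.isOrd (hE : IsFunField k E) {w : Place k E Ω} {π : E} (h : Unif w π) {g : E}
    (hg : g ≠ 0) : ∃ m : ℤ, w.IsOrd g m := by
  obtain ⟨m, u, h1, h2, h3, h4⟩ := h.exists_ord hE hg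
  exact ⟨m, π, u, h.1, h.2, h1, h2, h3, h4⟩

/-- Every place of a function field of one variable has a uniformizer. -/
theorem exists_unif [CharZero k] [IsAlgClosed Ω] (hE : IsFunField k E) (w : Place k E Ω) :
    ∃ π, Unif w π := by
  obtain ⟨y, hy⟩ : ∃ y, y ∉ w.V := by
    by_contra h
    push Not at h
    exact w.ne_top (by ext x; simp [h x])
  have hy0 : y ≠ 0 := by
    rintro rfl
    exact hy w.V.zero_mem
  have hty : Transcendental k y⁻¹ := by
    intro halg
    have halg' : IsAlgebraic k y := by simpa using halg.inv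
    obtain ⟨p, hp, hpy⟩ := halg'.isIntegral
    apply hy
    refine mem_of_monic (p := p.map (kV w)) (hp.map _) ?_
    rw [eval₂_map, subtype_comp_kV]
    exact hpy
  obtain ⟨S, m, x, h1, h2⟩ := Ct.exists_div (Ω := Ω) hE hty (n := 1) (p := fun _ => 1) (by
    intro h
    exact one_ne_zero (congrFun h 0))
  have hw : w ∈ S := by
    by_contra hw
    have h3 := (h1 w hw).2
    rw [inv_inv] at h3
    exact hy h3
  exact (h2 w hw).1.unif

/-- The places where a function has a zero or a pole are in a finite set. -/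
theorem exists_supp [CharZero k] [IsAlgClosed Ω] (hE : IsFunField k E) {g : E} (_hg : g ≠ 0) :
    ∃ S : Finset (Place k E Ω), ∀ w, w ∉ S → g ∈ w.V ∧ g⁻¹ ∈ w.V := by
  classical
  by_cases ht : Transcendental k g
  · obtain ⟨S, m, x, h1, h2⟩ := Ct.exists_div (Ω := Ω) hE ht (n := 1) (p := fun _ => 1) (by
      intro h
      exact one_ne_zero (congrFun h 0))
    exact ⟨S, h1⟩
  · rw [Transcendental, not_not] at ht
    have key : ∀ (w : Place k E Ω) (y : E), IsAlgebraic k y → y ∈ w.V := by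
      intro w y hy
      obtain ⟨p, hp, hpy⟩ := hy.isIntegral
      refine mem_of_monic (p := p.map (kV w)) (hp.map _) ?_
      rw [eval₂_map, subtype_comp_kV]
      exact hpy
    exact ⟨∅, fun w _ => ⟨key w g ht, key w _ ht.inv⟩⟩

theorem ord_mul {w : Place k E Ω} {a b : E} {m n : ℤ} (ha : w.IsOrd a m) (hb : w.IsOrd b n) :
    w.IsOrd (a * b) (m + n) := by
  obtain ⟨π, u, h0, h1, hu, hu', hu0, rfl⟩ := ha
  obtain ⟨ρ, v, h0', h1', hv, hv', hv0, rfl⟩ := hb
  have hπρ : π / ρ ∈ w.V := by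
    rw [← h1', h1, div_self h0]
    exact w.V.one_mem
  have hρπ : ρ / π ∈ w.V := by
    rw [← h1, h1', div_self h0']
    exact w.V.one_mem
  have key : ∀ n : ℤ, (ρ / π) ^ n ∈ w.V := by
    intro n
    rcases n with n | n
    · rw [Int.ofNat_eq_natCast, zpow_natCast]
      exact w.V.toSubring.pow_mem hρπ n
    · rw [zpow_negSucc, ← inv_pow, inv_div]
      exact w.V.toSubring.pow_mem hπρ _
  refine ⟨π, u * v * (ρ / π) ^ n, h0, h1, w.V.mul_mem _ _ (w.V.mul_mem _ _ hu hv) (key n), ?_,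
    mul_ne_zero (mul_ne_zero hu0 hv0) (zpow_ne_zero _ (div_ne_zero h0' h0)), ?_⟩
  · rw [mul_inv, mul_inv, ← zpow_neg]
    exact w.V.mul_mem _ _ (w.V.mul_mem _ _ hu' hv') (key _)
  · rw [zpow_add₀ h0, div_zpow]
    field_simp

theorem ord_zpow {w : Place k E Ω} {a : E} {m : ℤ} (ha : w.IsOrd a m) (n : ℤ) :
    w.IsOrd (a ^ n) (n * m) := by
  obtain ⟨π, u, h0, h1, hu, hu', hu0, rfl⟩ := ha
  have key : ∀ n : ℤ, u ^ n ∈ w.V := by
    intro n
    rcases n with n | n
    · rw [Int.ofNat_eq_natCast, zpow_natCast]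
      exact w.V.toSubring.pow_mem hu n
    · rw [zpow_negSucc, ← inv_pow]
      exact w.V.toSubring.pow_mem hu' _
  refine ⟨π, u ^ n, h0, h1, key n, ?_, zpow_ne_zero _ hu0, ?_⟩
  · rw [← zpow_neg]
    exact key _
  · rw [mul_zpow, ← zpow_mul, mul_comm m n]

theorem ord_unit {w : Place k E Ω} {π : E} (h : Unif w π) {u : E} (hu : u ∈ w.V) (hu' : u⁻¹ ∈ w.V)
    (hu0 : u ≠ 0) : w.IsOrd u 0 := ⟨π, u, h.1, h.2, hu, hu', hu0, by simp⟩

theorem ord_unif {w : Place k E Ω} {π : E} (h : Unif w π) : w.IsOrd π 1 :=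
  ⟨π, 1, h.1, h.2, w.V.one_mem, by rw [inv_one]; exact w.V.one_mem, one_ne_zero, by simp⟩

end Qb
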