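import Pool.Agent.Lib.MP_f80667_ag.Qb.Main
import Pool.Agent.Lib.MP_f80667_ag.Bx.Fin
import Pool.Agent.Lib.MP_f80667_ag.Hm.Onto
import Pool.Agent.Lib.MP_f80667_ag.Rw.Top

/-!
The theorem on families over the completions of a number field and on the adelic groups, for
`n > 8 r` and for quadrics in `n ≥ 5` variables.

* `NoPt K h`: the base has no points over `K`.
* `FibPt K h A`: the fibres over the `K`-points of the base have `K`-points.
* `FibCn K h A`: the sets of the `K`-points of these fibres are connected (`K ≃ ℝ`; the point `[x]`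
  is given by the matrix `x xᵀ` up to positive multiples).
* `SmR K h A`: the family is smooth at its `K`-points.
-/

open MvPolynomial IsDedekindDomain NumberField

namespace ZC

section defs

variable (K : Type) [Field K] {N n r : ℕ} {κ : Type}
  (h : κ → MvPolynomial (Fin N) K) (A : Fin r → Matrix (Fin n) (Fin n) (MvPolynomial (Fin N) K))

/-- The base has no points over `K`. -/
def NoPt : Prop := ∀ w : Fin N → K, Zer h K w → w = 0

/-- The fibres over the `K`-points of the base have `K`-points. -/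
def FibPt : Prop :=
  ∀ w : Fin N → K, w ≠ 0 → Zer h K w → ∃ x : Fin n → K, x ≠ 0 ∧ Zer2 h A K w x

/-- The fibres over the `K`-points of the base have connected sets of `K`-points, `K ≃ ℝ`. -/
def FibCn : Prop :=
  ∀ (e : K ≃+* ℝ) (w : Fin N → K), w ≠ 0 → Zer h K w → IsPreconnected {y : Fin n → Fin n → ℝ |
    ∃ x : Fin n → K, x ≠ 0 ∧ Zer2 h A K w x ∧ y = fun i j => e (x i) * e (x j)}

/-- The family is smooth at its `K`-points. -/
def SmR : Prop :=
  ∀ (w : Fin N → K) (x : Fin n → K), w ≠ 0 → x ≠ 0 → Zer2 h A K w x → Rl.SmAt2 h A w x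

end defs

section real

variable {F : Type} [Field F] {N n r : ℕ} {κ : Type}
  {h : κ → MvPolynomial (Fin N) F} {A : Fin r → Matrix (Fin n) (Fin n) (MvPolynomial (Fin N) F)}

/-- The field `F_v` is isomorphic to `ℝ` at a real place. -/
noncomputable def eIK {v : InfinitePlace F} (hv : v.IsReal) : IK F v ≃+* ℝ :=
  InfinitePlace.Completion.ringEquivRealOfIsReal hv

theorem real_one (hr : r = 1) (hn : 3 ≤ n) (hh : ∀ j, ∃ d, (h j).IsHomogeneous d)
    (hA : ∀ i, ∃ e, ∀ a b, (A i a b).IsHomogeneous e) {v : InfinitePlace F} (hv : v.IsReal)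
    (hp : FibPt (IK F v) (hE (IK F v) h) (AE (IK F v) A)) :
    PfBijN (IK F v) (hE (IK F v) h) (AE (IK F v) A) := by
  subst hr
  exact Rw.pfBijN_one (eIK hv) hn (hK_hom hh) (AK_hom hA) hp

theorem real_sm (hh : ∀ j, ∃ d, (h j).IsHomogeneous d)
    (hA : ∀ i, ∃ e, ∀ a b, (A i a b).IsHomogeneous e) {v : InfinitePlace F} (hv : v.IsReal)
    (hp : FibPt (IK F v) (hE (IK F v) h) (AE (IK F v) A))
    (hc : FibCn (IK F v) (hE (IK F v) h) (AE (IK F v) A))
    (hs : SmR (IK F v) (hE (IK F v) h) (AE (IK F v) A)) :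
    PfBijN (IK F v) (hE (IK F v) h) (AE (IK F v) A) :=
  Rl.pfBijN (eIK hv) (hK_hom hh) (AK_hom hA) hs hp (hc (eIK hv))

end real

end ZC

namespace Qb

open ZC

variable {F : Type} [Field F] [NumberField F] {N n r : ℕ} {κ : Type}
  {h : κ → MvPolynomial (Fin N) F} {A : Fin r → Matrix (Fin n) (Fin n) (MvPolynomial (Fin N) F)}

theorem fin_part (hh : ∀ j, ∃ d, (h j).IsHomogeneous d)
    (hA : ∀ i, ∃ e, ∀ a b, (A i a b).IsHomogeneous e) (hn : Rng r n)
    (v : HeightOneSpectrum (𝓞 F)) :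
    PfBij (FK F v) (hE (FK F v) h) (AE (FK F v) A) := by
  have := charZero_FK v
  exact ⟨fun z hz => fam_surj (good_FK v) (hK_hom hh) (AK_hom hA) hn.four hz, fun z hz =>
    ⟨fun h1 => pushW_ratEq h1, fun h1 => fam_inj (good_FK v) (hK_hom hh) (AK_hom hA) hn hz h1⟩⟩

theorem fin_p1 (hh : ∀ j, ∃ d, (h j).IsHomogeneous d)
    (hA : ∀ i, ∃ e, ∀ a b, (A i a b).IsHomogeneous e) (hn : Rng r n)
    (v : HeightOneSpectrum (𝓞 F)) :
    Function.Bijective (p1 (FK F v) (hE (FK F v) h) (AE (FK F v) A)) := by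
  have := charZero_FK v
  exact pushF1_bij (good_FK v) (hK_hom hh) (AK_hom hA) hn

theorem fin_transfer (hh : ∀ j, ∃ d, (h j).IsHomogeneous d)
    (hA : ∀ i, ∃ e, ∀ a b, (A i a b).IsHomogeneous e) (hn : Rng r n)
    (hreal : ∀ v : InfinitePlace F, v.IsReal → PfBijN (IK F v) (hE (IK F v) h) (AE (IK F v) A)) :
    ∃ φ : LHat (FA2 h A) ≃ LHat (FA h),
      (∀ (z : LHat (FA2 h A)) (m : ℕ+) (c : ZA2 h A), z.Rep m (clA2 c) →
        (φ z).Rep m (clA (pfA c))) ∧
      (PfOnto F h A →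
        (∀ z, ImD2 hh hA z ↔ ImD hh (φ z)) ∧
        ∀ (B B' T : Type) [Zero T] (b : B → B') (PW : LHat (FA h) → B → T)
          (PX : LHat (FA2 h A) → B' → T), (∀ z β, PX z (b β) = PW (φ z) β) →
          (∀ y, (∀ β, PW y β = 0) → ImD hh y) → ∀ z, (∀ β, PX z β = 0) → ImD2 hh hA z) :=
  transfer_onto hh hA (fun v => fin_p1 hh hA hn v) hreal

theorem onto (hh : ∀ j, ∃ d, (h j).IsHomogeneous d)
    (hA : ∀ i, ∃ e, ∀ a b, (A i a b).IsHomogeneous e)
    (H : (r = 1 ∧ 5 ≤ n ∧ ∀ v : InfinitePlace F, v.IsReal →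
        FibPt (IK F v) (hE (IK F v) h) (AE (IK F v) A)) ∨
      (2 * r * (r + 1) < n ∧ ∀ v : InfinitePlace F, v.IsReal → NoPt (IK F v) (hE (IK F v) h))) :
    PfOnto F h A := by
  rcases H with ⟨hr, hn, H⟩ | ⟨hn, H⟩
  · subst hr
    exact Hm.pfOnto_one hh hA hn H
  · exact Hm.pfOnto hh hA hn H

end Qb
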