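import Mathlib

/-!
A quadratic form `φ` in at least two variables over a field `M`, `φ(a) = g φ(b)`: over `M` or over a
quadratic extension `M'` in which `g` is a norm, `φ` is isotropic.
-/

open Polynomial

namespace Qb

universe u

section qf

variable {R : Type*} [CommRing R] {n : ℕ}

/-- The quadratic form of a matrix. -/
def qf (A : Matrix (Fin n) (Fin n) R) (v : Fin n → R) : R := dotProduct v (A.mulVec v)

theorem qf_add_smul (A : Matrix (Fin n) (Fin n) R) (u v : Fin n → R) (t : R) :
    qf A (u + t • v) =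
      qf A u + t * (dotProduct u (A.mulVec v) + dotProduct v (A.mulVec u)) + t ^ 2 * qf A v := by
  simp only [qf, Matrix.mulVec_add, Matrix.mulVec_smul, dotProduct_add, add_dotProduct,
    dotProduct_smul, smul_dotProduct, smul_eq_mul]
  ring

theorem qf_smul (A : Matrix (Fin n) (Fin n) R) (v : Fin n → R) (t : R) :
    qf A (t • v) = t ^ 2 * qf A v := by
  simp only [qf, Matrix.mulVec_smul, dotProduct_smul, smul_dotProduct, smul_eq_mul]
  ring

theorem qf_map {S : Type*} [CommRing S] (f : R →+* S) (A : Matrix (Fin n) (Fin n) R)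
    (v : Fin n → R) : qf (A.map f) (fun i => f (v i)) = f (qf A v) := by
  simp only [qf, dotProduct, Matrix.mulVec, Matrix.map_apply, map_sum, map_mul]

end qf

/-- Over a quadratic extension in which `g` is a norm. -/
theorem exists_ext {M : Type u} [Field M] [CharZero M] {n : ℕ} (A : Matrix (Fin n) (Fin n) M)
    (hA : ∀ p : Fin n → M, p ≠ 0 → qf A p ≠ 0) {u v : Fin n → M} (hv : v ≠ 0)
    (huv : ∀ t : M, u + t • v ≠ 0) :
    ∃ (M' : Type u) (_ : Field M') (_ : Algebra M M') (_ : FiniteDimensional M M')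
      (σ : M' ≃ₐ[M] M') (θ : M') (p : Fin n → M'), Module.finrank M M' = 2 ∧ p ≠ 0 ∧
      qf (A.map (algebraMap M M')) p = 0 ∧ θ * σ θ = algebraMap M M' (qf A u / qf A v) := by
  have hc : qf A v ≠ 0 := hA v hv
  set c := qf A v with hcdef
  set β := (dotProduct u (A.mulVec v) + dotProduct v (A.mulVec u)) with hβ
  set g := qf A u / c with hg
  set q : M[X] := X ^ 2 + C (β / c) * X + C g with hq
  have hqt : ∀ t : M, q.eval t * c = qf A (u + t • v) := by
    intro t
    rw [qf_add_smul, hq]
    simp only [eval_add, eval_mul, eval_pow, eval_X, eval_C]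
    rw [← hβ, ← hcdef, hg]
    field_simp
    ring
  have hdeg : q.natDegree = 2 := by
    rw [hq]
    compute_degree!
  have hmon : q.Monic := by
    rw [hq]
    monicity!
  have hroot : ∀ t : M, ¬ q.IsRoot t := by
    intro t ht
    have h1 := hqt t
    rw [ht.eq_zero, zero_mul] at h1
    exact hA _ (huv t) h1.symm
  have hirr : Irreducible q := by
    refine (Polynomial.Monic.irreducible_iff_roots_eq_zero_of_degree_le_three hmon
      (by rw [hdeg]) (by rw [hdeg]; omega)).2 ?_
    rw [Multiset.eq_zero_iff_forall_notMem]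
    intro t ht
    exact hroot t (isRoot_of_mem_roots ht)
  have hqe : ∀ (S : Type u) [CommRing S] [Algebra M S] (x : S),
      eval₂ (algebraMap M S) x q = x ^ 2 + algebraMap M S (β / c) * x + algebraMap M S g := by
    intro S _ _ x
    rw [hq]
    simp only [eval₂_add, eval₂_mul, eval₂_pow, eval₂_X, eval₂_C]
  have : Fact (Irreducible q) := ⟨hirr⟩
  have hfd : FiniteDimensional M (AdjoinRoot q) := (AdjoinRoot.powerBasis hirr.ne_zero).finite
  have hfr : Module.finrank M (AdjoinRoot q) = 2 := by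
    rw [(AdjoinRoot.powerBasis hirr.ne_zero).finrank, AdjoinRoot.powerBasis_dim, hdeg]
  let θ : AdjoinRoot q := AdjoinRoot.root q
  have hθ : θ ^ 2 + algebraMap M _ (β / c) * θ + algebraMap M _ g = 0 := by
    rw [← hqe]
    have h1 : aeval θ q = 0 := by
      rw [AdjoinRoot.aeval_eq, AdjoinRoot.mk_self]
    exact h1
  have hq2 : q.eval₂ (algebraMap M (AdjoinRoot q)) (-algebraMap M _ (β / c) - θ) = 0 := by
    rw [hqe]
    linear_combination hθ
  let σ0 : AdjoinRoot q →ₐ[M] AdjoinRoot q :=
    AdjoinRoot.liftAlgHom q (Algebra.ofId M _) (-algebraMap M _ (β / c) - θ) hq2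
  have hσ0 : σ0 θ = -algebraMap M _ (β / c) - θ := by
    exact AdjoinRoot.liftAlgHom_root ..
  let σ : AdjoinRoot q ≃ₐ[M] AdjoinRoot q :=
    AlgEquiv.ofBijective σ0 (Algebra.IsAlgebraic.algHom_bijective σ0)
  refine ⟨AdjoinRoot q, inferInstance, inferInstance, hfd, σ, θ,
    (fun i => algebraMap M _ (u i)) + θ • (fun i => algebraMap M _ (v i)), hfr, ?_, ?_, ?_⟩
  · intro h
    obtain ⟨j, hj⟩ : ∃ j, v j ≠ 0 := by
      by_contra h1
      push Not at h1
      exact hv (funext h1)
    have h1 := congrFun h j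
    simp only [Pi.add_apply, Pi.smul_apply, smul_eq_mul, Pi.zero_apply] at h1
    have h2 : θ = algebraMap M _ (- u j / v j) := by
      have h3 : algebraMap M (AdjoinRoot q) (v j) ≠ 0 := (_root_.map_ne_zero _).2 hj
      rw [map_div₀, map_neg, eq_div_iff h3]
      linear_combination h1
    apply hroot (- u j / v j)
    have h4 : algebraMap M (AdjoinRoot q) (q.eval (- u j / v j)) = 0 := by
      have h5 := hqe (AdjoinRoot q) θ
      rw [hθ, h2, Polynomial.eval₂_at_apply] at h5
      exact h5
    exact (map_eq_zero_iff _ (algebraMap M (AdjoinRoot q)).injective).1 h4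
  · rw [qf_add_smul, qf_map, qf_map]
    have h1 : dotProduct (fun i => algebraMap M (AdjoinRoot q) (u i))
        ((A.map (algebraMap M (AdjoinRoot q))).mulVec fun i => algebraMap M _ (v i)) +
        dotProduct (fun i => algebraMap M (AdjoinRoot q) (v i))
        ((A.map (algebraMap M (AdjoinRoot q))).mulVec fun i => algebraMap M _ (u i)) =
        algebraMap M _ β := by
      rw [hβ, map_add]
      simp only [dotProduct, Matrix.mulVec, Matrix.map_apply, map_sum, map_mul]
    rw [h1, ← hcdef]
    have h2 : algebraMap M (AdjoinRoot q) (qf A u) = algebraMap M _ g * algebraMap M _ c := by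
      rw [← map_mul, hg, div_mul_cancel₀ _ hc]
    have h3 : algebraMap M (AdjoinRoot q) β = algebraMap M _ (β / c) * algebraMap M _ c := by
      rw [← map_mul, div_mul_cancel₀ _ hc]
    rw [h2, h3]
    linear_combination (algebraMap M (AdjoinRoot q) c) * hθ
  · change θ * σ0 θ = _
    rw [hσ0]
    linear_combination -hθ

/-- **The norm trick for quadratic forms.** -/
theorem exists_norm {M : Type u} [Field M] [CharZero M] {n : ℕ} (hn : 2 ≤ n)
    (A : Matrix (Fin n) (Fin n) M) {g : M} {a b : Fin n → M} (hab : a ≠ 0 ∨ b ≠ 0)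
    (hg : g ≠ 0) (h : qf A a = g * qf A b) :
    (∃ p : Fin n → M, p ≠ 0 ∧ qf A p = 0) ∨
    ∃ (M' : Type u) (_ : Field M') (_ : Algebra M M') (_ : FiniteDimensional M M')
      (σ : M' ≃ₐ[M] M') (θ : M') (p : Fin n → M'), Module.finrank M M' = 2 ∧ p ≠ 0 ∧
      qf (A.map (algebraMap M M')) p = 0 ∧ θ * σ θ = algebraMap M M' g := by
  by_cases hA : ∃ p : Fin n → M, p ≠ 0 ∧ qf A p = 0
  · exact Or.inl hA
  right
  have hA' : ∀ p : Fin n → M, p ≠ 0 → qf A p ≠ 0 := fun p hp h0 => hA ⟨p, hp, h0⟩
  have hb : b ≠ 0 := by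
    rintro rfl
    have h1 : qf A (0 : Fin n → M) = 0 := by simp [qf]
    rw [h1, mul_zero] at h
    rcases hab with h2 | h2
    · exact hA' a h2 h
    · exact h2 rfl
  have hgq : g = qf A a / qf A b := by
    rw [h, mul_div_cancel_right₀ _ (hA' b hb)]
  by_cases hab' : ∀ t : M, a + t • b ≠ 0
  · obtain ⟨M', i1, i2, i3, σ, θ, p, h1, h2, h3, h4⟩ := exists_ext A hA' hb hab'
    exact ⟨M', i1, i2, i3, σ, θ, p, h1, h2, h3, by rw [h4, ← hgq]⟩
  · push Not at hab'
    obtain ⟨t, ht⟩ := hab'
    have ha : a = (-t) • b := by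
      rw [neg_smul]
      exact eq_neg_of_add_eq_zero_left ht
    have hg2 : g = t ^ 2 := by
      rw [hgq, ha, qf_smul, neg_sq, mul_div_cancel_right₀ _ (hA' b hb)]
    -- a vector which is not a multiple of `b`
    obtain ⟨j, hj⟩ : ∃ j, b j ≠ 0 := by
      by_contra h1
      push Not at h1
      exact hb (funext h1)
    obtain ⟨i, hi⟩ : ∃ i : Fin n, i ≠ j := by
      have : Nontrivial (Fin n) := Fin.nontrivial_iff_two_le.2 hn
      exact exists_ne j
    have huv : ∀ s : M, (Pi.single i 1 : Fin n → M) + s • b ≠ 0 := by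
      intro s hs
      have h1 := congrFun hs j
      rw [Pi.add_apply, Pi.single_eq_of_ne hi.symm, zero_add, Pi.smul_apply, smul_eq_mul,
        Pi.zero_apply] at h1
      have hs0 : s = 0 := (mul_eq_zero.1 h1).resolve_right hj
      rw [hs0, zero_smul, add_zero] at hs
      have h2 := congrFun hs i
      rw [Pi.single_eq_same, Pi.zero_apply] at h2
      exact one_ne_zero h2
    obtain ⟨M', i1, i2, i3, σ, θ, p, h1, h2, h3, h4⟩ := exists_ext A hA' hb huv
    refine ⟨M', i1, i2, i3, σ, algebraMap M M' t, p, h1, h2, h3, ?_⟩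
    rw [σ.commutes, hg2, sq, map_mul]

end Qb
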