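import Pool.Agent.Lib.MP_f80667_ag.Qb.Nrm
import Pool.Agent.Lib.MP_f80667_ag.Qb.Dbl
import Pool.Agent.Lib.MP_f80667_ag.Cu.CycB

/-!
Relations on the base lift to relations on a family of quadrics in at least five variables, up to a
multiple prime to a given number.
-/

open scoped LinearAlgebra.Projectivization
open Module MvPolynomial ZC

namespace Qb

universe u

section dbl

variable {E M : Type*} [Field E] [Field M] [Algebra E M] {n : ℕ}

/-- The block matrix of the form `φ(a) - g φ(b)`. -/
noncomputable def dm (B : Matrix (Fin n) (Fin n) E) (g : E) : Matrix (Fin (n + n)) (Fin (n + n)) E :=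
  Matrix.reindex finSumFinEquiv finSumFinEquiv (Matrix.fromBlocks B 0 0 (-g • B))

theorem dm_apply (B : Matrix (Fin n) (Fin n) E) (g : E) (x : Fin (n + n) → M) :
    dotProduct x (((dm B g).map (algebraMap E M)).mulVec x) =
      qf (B.map (algebraMap E M)) (fun i => x (Fin.castAdd n i)) -
        algebraMap E M g * qf (B.map (algebraMap E M)) (fun i => x (Fin.natAdd n i)) := by
  simp only [qf, dotProduct, Matrix.mulVec, Matrix.map_apply, Fin.sum_univ_add, dm,
    Matrix.reindex_apply, Matrix.submatrix_apply, finSumFinEquiv_symm_apply_castAdd,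
    finSumFinEquiv_symm_apply_natAdd, Matrix.fromBlocks_apply₁₁, Matrix.fromBlocks_apply₁₂,
    Matrix.fromBlocks_apply₂₁, Matrix.fromBlocks_apply₂₂, Matrix.zero_apply, map_zero, zero_mul,
    Finset.sum_const_zero, add_zero, zero_add, Matrix.smul_apply, smul_eq_mul, map_mul, map_neg]
  rw [sub_eq_add_neg, Finset.mul_sum, ← Finset.sum_neg_distrib]
  congr 1
  refine Finset.sum_congr rfl fun i _ => ?_
  rw [Finset.mul_sum, Finset.mul_sum, Finset.mul_sum, ← Finset.sum_neg_distrib]
  refine Finset.sum_congr rfl fun j _ => ?_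
  ring

end dbl

section main

variable {k : Type u} [Field k] [CharZero k] {Ω : Type u} [Field Ω] [Algebra k Ω]
  [IsAlgClosure k Ω] {N n : ℕ} {κ : Type} {h : κ → MvPolynomial (Fin N) k}
  {A : Fin 1 → Matrix (Fin n) (Fin n) (MvPolynomial (Fin N) k)}

/-- Relations on the base lift up to a multiple prime to `D`. -/
theorem fam_lift1 (hG : ∀ s, Good k Ω s) (hn : 5 ≤ n)
    {z : ℙ Ω (Fin N → Ω) →₀ ℤ} (hz : z ∈ ratEq Ω h) (D : ℕ) (hD : D ≠ 0) :
    ∃ m : ℕ, m.Coprime D ∧ ∃ y ∈ ratEq2 Ω h A, pushW Ω y = m • z := by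
  have hcl : IsAlgClosed Ω := IsAlgClosure.isAlgClosed k
  induction hz using AddSubgroup.closure_induction with
  | zero => exact ⟨1, Nat.coprime_one_left D, 0, zero_mem _, by simp⟩
  | add a b _ _ ha hb =>
    obtain ⟨m, hm, y, hy, hyz⟩ := ha
    obtain ⟨m', hm', y', hy', hyz'⟩ := hb
    refine ⟨m * m', Nat.Coprime.mul_left hm hm', m' • y + m • y',
      add_mem (nsmul_mem hy _) (nsmul_mem hy' _), ?_⟩
    rw [map_add, map_nsmul, map_nsmul, hyz, hyz', smul_smul, smul_smul, mul_comm m' m, smul_add]
  | neg a _ ha =>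
    obtain ⟨m, hm, y, hy, hyz⟩ := ha
    exact ⟨m, hm, -y, neg_mem hy, by rw [map_neg, hyz, smul_neg]⟩
  | mem z hz =>
    obtain ⟨E, _, _, hE, g, w, hg, hw, hZ, hP⟩ := hz
    obtain ⟨t, ht, hfin⟩ := id hE
    have hd0 : finrank (IntermediateField.adjoin k {t}) E ≠ 0 := finrank_pos.ne'
    obtain ⟨s, hs⟩ := Fa.claimH.{u, u, u, u} hE (r := 1) (n := n + n) (by omega)
      fun i => dm ((A i).map (aeval w)) g
    obtain ⟨L, hL, hc, hI⟩ := hG s (D * finrank (IntermediateField.adjoin k {t}) E)
      (mul_ne_zero hD hd0)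
    obtain ⟨M, _, _, _, _, _, _, θ, f, hf1, hf2, hf3, hf4, hf5, hf6, hf7, hf8⟩ :=
      Fa.exists_comp ht L (Nat.Coprime.coprime_mul_left_right hc)
    have H : Fa.Cst k E f θ :=
      { monic := hf1
        sep := hf2
        root := by rw [hf3]; exact minpoly.aeval E θ
        min := by
          intro p hp hp0
          by_contra hne
          have h1 := minpoly.degree_le_of_ne_zero E θ hne hp0
          rw [← hf3, Polynomial.degree_map] at h1
          exact absurd hp (not_lt.2 h1)
        gen := by
          intro y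
          have h1 : y ∈ Algebra.adjoin E {θ} := by rw [hf5]; trivial
          rw [Algebra.adjoin_singleton_eq_range_aeval] at h1
          exact h1 }
    have hcop : f.natDegree.Coprime D := by
      rw [hf6]
      exact Nat.Coprime.coprime_mul_right_right hc
    have hgM : algebraMap E M g ≠ 0 := (map_ne_zero _).2 hg
    have hwM : (fun i => algebraMap E M (w i)) ≠ 0 := comp_ne (algebraMap E M) hw
    have hZM : Zer h M fun i => algebraMap E M (w i) := hZ.map (IsScalarTower.toAlgHom k E M)
    have hchar : CharZero M := charZero_of_injective_algebraMap (algebraMap k M).injective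
    have hAM : ∀ i, ((A i).map (aeval w)).map (algebraMap E M) =
        (A i).map (aeval fun i => algebraMap E M (w i)) := by
      intro i
      ext a b
      simp only [Matrix.map_apply]
      exact comp_aeval_apply (φ := IsScalarTower.toAlgHom k E M) (f := w) (A i a b)
    obtain ⟨x, hx, hxz⟩ := hs L M hf7 (hI L hL le_rfl s le_rfl)
    have h0 := hxz 0
    rw [dm_apply, sub_eq_zero, hAM] at h0
    have hab : (fun i => x (Fin.castAdd n i)) ≠ 0 ∨ (fun i => x (Fin.natAdd n i)) ≠ 0 := by
      by_contra hcon
      push Not at hcon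
      apply hx
      funext i
      refine Fin.addCases (fun i => ?_) (fun i => ?_) i
      · exact congrFun hcon.1 i
      · exact congrFun hcon.2 i
    rcases exists_norm (by omega) _ hab hgM h0 with ⟨p, hp, hpz⟩ |
      ⟨M', i1, i2, i3, σ, τ, p, h1, h2, h3, h4⟩
    · obtain ⟨y, hy1, hy2⟩ := lift_push H hE hP hp
      refine ⟨f.natDegree, hcop, y, ?_, hy1⟩
      refine AddSubgroup.subset_closure ⟨M, inferInstance, inferInstance, hf8, algebraMap E M g,
        fun i => algebraMap E M (w i), p, hgM, hwM, hp, ⟨hZM, fun i => ?_⟩, hy2⟩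
      rw [Fin.fin_one_eq_zero i]
      exact hpz
    · let i4 : Algebra k M' := ((algebraMap M M').comp (algebraMap k M)).toAlgebra
      have i5 : IsScalarTower k M M' := IsScalarTower.of_algebraMap_eq fun a => rfl
      have hM' : IsFunField k M' := Cu.isFunField_ext hf8
      have hPM := Fa.isPush_ext (M := M) H hE hP
      obtain ⟨y, hy1, hy2⟩ := lift_two (N := N) (n := n) hf8 hM' h1 σ hgM h4 hwM hPM h2
      refine ⟨f.natDegree, hcop, y, ?_, hy1⟩
      have hτ : τ ≠ 0 := by
        rintro rfl
        rw [zero_mul] at h4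
        exact hgM ((map_eq_zero _).1 h4.symm)
      refine AddSubgroup.subset_closure ⟨M', inferInstance, i4, hM', τ,
        fun i => algebraMap M M' (algebraMap E M (w i)), p, hτ, comp_ne (algebraMap M M') hwM, h2,
        ⟨hZM.map (IsScalarTower.toAlgHom k M M'), fun i => ?_⟩, hy2⟩
      rw [Fin.fin_one_eq_zero i]
      have h5 : ((A 0).map (aeval fun i => algebraMap E M (w i))).map (algebraMap M M') =
          (A 0).map (aeval fun i => algebraMap M M' (algebraMap E M (w i))) := by
        ext a b
        simp only [Matrix.map_apply]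
        exact comp_aeval_apply (φ := IsScalarTower.toAlgHom k M M')
          (f := fun i => algebraMap E M (w i)) (A 0 a b)
      rw [← h5]
      exact h3

end main

end Qb
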