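import Pool.Agent.Lib.MP_f80667_ag.Qb.Lift
import Pool.Agent.Lib.MP_f80667_ag.Fa.Main

/-!
The family theorem for `n > 8 r` and for quadrics (`r = 1`) in `n ≥ 5` variables.
-/

open scoped LinearAlgebra.Projectivization
open Module MvPolynomial ZC

namespace Qb

universe u

/-- The condition on the number of variables. -/
def Rng (r n : ℕ) : Prop := 8 * r < n ∨ (r = 1 ∧ 5 ≤ n)

theorem Rng.four {r n : ℕ} (h : Rng r n) : 4 * r < n := by
  rcases h with h | ⟨rfl, h⟩ <;> omega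

theorem Rng.six {r n : ℕ} (h : Rng r n) : 6 * r ≤ n + 3 := by
  rcases h with h | ⟨rfl, h⟩ <;> omega

variable {k : Type u} [Field k] [CharZero k] {Ω : Type u} [Field Ω] [Algebra k Ω]
  [IsAlgClosure k Ω] {N n r : ℕ} {κ : Type} {h : κ → MvPolynomial (Fin N) k}
  {A : Fin r → Matrix (Fin n) (Fin n) (MvPolynomial (Fin N) k)}

theorem fam_lift (hG : ∀ s, Good k Ω s) (hn : Rng r n)
    {z : ℙ Ω (Fin N → Ω) →₀ ℤ} (hz : z ∈ ratEq Ω h) (D : ℕ) (hD : D ≠ 0) :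
    ∃ m : ℕ, m.Coprime D ∧ ∃ y ∈ ratEq2 Ω h A, pushW Ω y = m • z := by
  rcases hn with hn | ⟨rfl, hn⟩
  · exact ZC.fam_lift hG hn hz D hD
  · exact fam_lift1 hG hn hz D hD

theorem fam_inj (hG : ∀ s, Good k Ω s) (hh : ∀ j, ∃ d, (h j).IsHomogeneous d)
    (hA : ∀ i, ∃ e, ∀ a b, (A i a b).IsHomogeneous e) (hn : Rng r n)
    {z : Pt2 Ω N n →₀ ℤ} (hz : z ∈ cyc2 Ω h A) (h0 : pushW Ω z ∈ ratEq Ω h) :
    z ∈ ratEq2 Ω h A := by
  have key : ∀ D : ℕ, D ≠ 0 → ∃ m : ℕ, m.Coprime D ∧ m • z ∈ ratEq2 Ω h A := by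
    intro D hD
    obtain ⟨m, hm, y, hy, hyz⟩ := fam_lift (A := A) hG hn h0 D hD
    refine ⟨m, hm, ?_⟩
    have h1 : m • z - y ∈ ratEq2 Ω h A := by
      refine fam_ker' (hG r) hh hA hn.six hn.four (sub_mem (nsmul_mem hz m) (ratEq2_le hh hA hy)) ?_
      rw [map_sub, map_nsmul, hyz, sub_self]
    have h2 := add_mem h1 hy
    rwa [sub_add_cancel] at h2
  obtain ⟨m, hm, hmz⟩ := key 2 two_ne_zero
  have hm0 : m ≠ 0 := by
    rintro rfl
    norm_num at hm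
  obtain ⟨m', hm', hmz'⟩ := key m hm0
  exact mem_of_coprime hm'.symm hmz hmz'

/-- The family theorem in degree `0`. -/
theorem pushF1_bij (hG : ∀ s, Good k Ω s) (hh : ∀ j, ∃ d, (h j).IsHomogeneous d)
    (hA : ∀ i, ∃ e, ∀ a b, (A i a b).IsHomogeneous e) (hn : Rng r n) :
    Function.Bijective (pushF1 Ω h A) :=
  pushF1_bijective (fun _ hz => fam_surj hG hh hA hn.four hz)
    (fun _ hz h0 => fam_inj hG hh hA hn hz h0)

end Qb
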