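import Pool.Agent.Lib.MP_f80667_ag.Qb.Disc

/-!
The fundamental identity for the `Ω`-valued places over a given place.
-/

open Polynomial IsDedekindDomain

namespace Qb

open ZC Fa Dz

universe u

section dvr

variable {k E Ω : Type u} [Field k] [Field E] [Field Ω] [Algebra k E] [Algebra k Ω]

theorem isUnit_V {w : Place k E Ω} {x : E} (hx : x ∈ w.V) (hx0 : x ≠ 0) :
    IsUnit (⟨x, hx⟩ : w.V) ↔ x⁻¹ ∈ w.V := by
  constructor
  · rintro ⟨y, hy⟩
    have h1 : ((y⁻¹ : w.Vˣ) : w.V).1 = x⁻¹ := by
      have h2 : (y : w.V).1 = x := by rw [hy]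
      have h3 : (y : w.V).1 * ((y⁻¹ : w.Vˣ) : w.V).1 = 1 := congrArg Subtype.val y.mul_inv
      rw [h2] at h3
      exact (inv_eq_of_mul_eq_one_right h3).symm
    rw [← h1]
    exact ((y⁻¹ : w.Vˣ) : w.V).2
  · intro h
    exact ⟨⟨⟨x, hx⟩, ⟨x⁻¹, h⟩, by ext; exact mul_inv_cancel₀ hx0, by ext; exact inv_mul_cancel₀ hx0⟩,
      rfl⟩

/-- The valuation ring of a place with a uniformizer is a discrete valuation ring. -/
theorem Unif.dvr (hE : IsFunField k E) {w : Place k E Ω} {π : E} (h : Unif w π) :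
    IsDiscreteValuationRing w.V := by
  refine IsDiscreteValuationRing.ofHasUnitMulPowIrreducibleFactorization ⟨⟨π, h.mem⟩, ?_, ?_⟩
  · refine ⟨fun hu => ?_, fun {a b} hab => ?_⟩
    · rw [isUnit_V h.mem h.1] at hu
      exact (((ValuationSubring.mem_nonunits_iff_or _).1 h.mem_nonunits).resolve_left h.1) hu
    · have hab' : π = a.1 * b.1 := congrArg Subtype.val hab
      have ha0 : a.1 ≠ 0 := by
        intro h0
        rw [h0, zero_mul] at hab'
        exact h.1 hab'
      have hb0 : b.1 ≠ 0 := by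
        intro h0
        rw [h0, mul_zero] at hab'
        exact h.1 hab'
      by_cases ha : a.1⁻¹ ∈ w.V
      · left
        exact (isUnit_V a.2 ha0).2 ha
      · right
        refine (isUnit_V b.2 hb0).2 ?_
        have h1 : a.1 ∈ w.V.nonunits := (ValuationSubring.mem_nonunits_iff_or _).2 (Or.inr ha)
        rw [h.2] at h1
        have h2 : b.1⁻¹ = a.1 / π := by
          rw [hab']
          field_simp
        rw [h2]
        exact h1
  · intro x hx
    have hx0 : x.1 ≠ 0 := fun h0 => hx (by ext; exact h0)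
    obtain ⟨m, u, hu, hu', hu0, he⟩ := h.exists_ord hE hx0
    have hπi : π⁻¹ ∉ w.V :=
      ((ValuationSubring.mem_nonunits_iff_or _).1 h.mem_nonunits).resolve_left h.1
    have hm : 0 ≤ m := by
      by_contra hneg
      push Not at hneg
      obtain ⟨l, hl⟩ : ∃ l : ℕ, m = -(l + 1 : ℤ) := ⟨(-m - 1).toNat, by omega⟩
      apply hπi
      have h1 : π⁻¹ = x.1 * u⁻¹ * π ^ l := by
        rw [he, hl, zpow_neg]
        have h2 : π ^ ((l : ℤ) + 1) = π ^ l * π := by
          rw [zpow_add₀ h.1, zpow_natCast, zpow_one]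
        rw [h2]
        have := h.1
        field_simp
      rw [h1]
      exact w.V.mul_mem _ _ (w.V.mul_mem _ _ x.2 hu') (w.V.toSubring.pow_mem h.mem l)
    obtain ⟨l, rfl⟩ := Int.eq_ofNat_of_zero_le hm
    refine ⟨l, ⟨⟨⟨u, hu⟩, ⟨u⁻¹, hu'⟩, by ext; exact mul_inv_cancel₀ hu0,
      by ext; exact inv_mul_cancel₀ hu0⟩, ?_⟩⟩
    ext
    change π ^ l * u = x.1
    rw [he]
    change π ^ l * u = u * π ^ (l : ℤ)
    rw [zpow_natCast, mul_comm]

end dvr

section ovr

variable {k M M' Ω : Type u} [Field k] [Field M] [Field M'] [Field Ω] [Algebra k M] [Algebra k M']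
  [Algebra k Ω] [Algebra M M'] [IsScalarTower k M M']

/-- A place over `w` contains the integral closure of the valuation ring of `w`. -/
theorem mem_of_over (w : Place k M Ω) (w' : Place k M' Ω) (h : ∀ a ∈ w.V, algebraMap M M' a ∈ w'.V)
    (b : integralClosure w.V M') : (b : M') ∈ w'.V := by
  obtain ⟨p, hp, hpb⟩ := b.2
  let ψ : w.V →+* w'.V :=
    { toFun := fun x => ⟨algebraMap M M' x, h x x.2⟩
      map_one' := by ext; simp
      map_zero' := by ext; simp
      map_mul' := by intro x y; ext; simp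
      map_add' := by intro x y; ext; simp }
  refine mem_of_monic (p := p.map ψ) (hp.map _) ?_
  rw [eval₂_map]
  exact hpb

/-- **The fundamental identity.** -/
theorem sum_over [CharZero k] [IsAlgClosed Ω] (hM : IsFunField k M) (hM' : IsFunField k M')
    [FiniteDimensional M M'] (alg : Algebra.IsAlgebraic M M') {w : Place k M Ω} {π : M}
    (hπ : Unif w π) :
    ∃ T : Finset (Place k M' Ω), (∀ w', w' ∈ T ↔ restr alg w' = w) ∧
      ∀ m : Place k M' Ω → ℤ, (∀ w' ∈ T, w'.IsOrd (algebraMap M M' π) (m w')) →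
        ∑ w' ∈ T, m w' = (Module.finrank M M' : ℤ) := by
  classical
  let R := w.V
  let B := integralClosure R M'
  have hdvr : IsDiscreteValuationRing R := hπ.dvr hM
  have hchar : CharZero M := charZero_of_injective_algebraMap (algebraMap k M).injective
  have hsep : Algebra.IsSeparable M M' := inferInstance
  have hB : IsDedekindDomain B := integralClosure.isDedekindDomain R M M'
  have hBfin : Module.Finite R B := IsIntegralClosure.finite R M M' B
  have hfr : IsFractionRing B M' := IsIntegralClosure.isFractionRing_of_finite_extension R M M' B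
  have hrank : Module.finrank R B = Module.finrank M M' := IsIntegralClosure.rank R M M' B
  let π0 : R := ⟨π, hπ.mem⟩
  let p : Ideal R := IsLocalRing.maximalIdeal R
  have hp : p.IsMaximal := IsLocalRing.maximalIdeal.isMaximal R
  have htf : Module.IsTorsionFree w.V M' := inferInstance
  have htf2 : Module.IsTorsionFree w.V (integralClosure w.V M') := inferInstance
  have hflat : Module.Flat R B := inferInstance
  have hpπ : p = Ideal.span {π0} := by
    refine le_antisymm (fun x hx => ?_) ?_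
    · have h1 : x.1 ∈ w.V.nonunits := ValuationSubring.coe_mem_nonunits_iff.2 hx
      rw [hπ.2] at h1
      rw [Ideal.mem_span_singleton']
      refine ⟨⟨x.1 / π, h1⟩, ?_⟩
      ext
      exact div_mul_cancel₀ _ hπ.1
    · rw [Ideal.span_singleton_le_iff_mem]
      exact ValuationSubring.coe_mem_nonunits_iff.1 hπ.mem_nonunits
  have hp0 : p ≠ ⊥ := IsDiscreteValuationRing.not_a_field R
  let b0 : B := algebraMap R B π0
  have hb0E : algebraMap B M' b0 = algebraMap M M' π := rfl
  have hπ' : algebraMap M M' π ≠ 0 := (_root_.map_ne_zero _).2 hπ.1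
  have hb0 : b0 ≠ 0 := fun h => hπ' (by rw [← hb0E, h, map_zero])
  have hpB : p.map (algebraMap R B) = Ideal.span {b0} := by
    rw [hpπ, Ideal.map_span, Set.image_singleton]
  have hpB0 : p.map (algebraMap R B) ≠ ⊥ := by
    rw [hpB, Ne, Ideal.span_singleton_eq_bot]
    exact hb0
  let : Fintype (p.primesOver B) := (Algebra.QuasiFinite.finite_primesOver p).fintype
  have hsum := Ideal.sum_ramification_inertia_eq_finrank p B
  -- the algebra structures over `k` and over the residue field
  let i1 : Algebra k R := (kV w).toAlgebra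
  let i2 : Algebra k B := ((algebraMap R B).comp (kV w)).toAlgebra
  have s1 : IsScalarTower k R B := IsScalarTower.of_algebraMap_eq fun a => rfl
  have s2 : IsScalarTower k B M' := IsScalarTower.of_algebraMap_eq fun a => by
    rw [IsScalarTower.algebraMap_apply k M M']
    rfl
  have hmemp : ∀ x : R, x ∈ p ↔ x.1 ∈ w.V.nonunits := fun x =>
    ValuationSubring.coe_mem_nonunits_iff.symm
  -- the residue embedding
  let : Field (R ⧸ p) := Ideal.Quotient.field p
  let ρ : R ⧸ p →+* Ω := Ideal.Quotient.lift p w.res fun x hx => by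
    rw [Fa.res_eq_zero_iff]
    exact (hmemp x).1 hx
  have hρ : ∀ x : R, ρ (Ideal.Quotient.mk p x) = w.res x := fun x => rfl
  let i3 : Algebra (R ⧸ p) Ω := ρ.toAlgebra
  have s3 : IsScalarTower k (R ⧸ p) Ω := IsScalarTower.of_algebraMap_eq fun a => (w.res_k a).symm
  -- places over `w`
  let Ov : Place k M' Ω → Prop := fun w' => restr alg w' = w
  have hOV : ∀ w', Ov w' → ∀ a ∈ w.V, algebraMap M M' a ∈ w'.V := by
    intro w' h a ha
    have h1 : a ∈ (restr alg w').V := by rw [h]; exact ha
    exact h1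
  have hOR : ∀ w' (h : Ov w') (a : M) (ha : a ∈ w.V),
      w'.res ⟨algebraMap M M' a, hOV w' h a ha⟩ = w.res ⟨a, ha⟩ := by
    rintro w' h a ha
    have key : ∀ (v : Place k M Ω) (h : restr alg w' = v) (ha : a ∈ v.V)
        (h2 : algebraMap M M' a ∈ w'.V), w'.res ⟨algebraMap M M' a, h2⟩ = v.res ⟨a, ha⟩ := by
      rintro v rfl ha h2
      rfl
    exact key w h ha _
  have hIsB : ∀ w', Ov w' → ∀ b : B, algebraMap B M' b ∈ w'.V :=
    fun w' h b => mem_of_over w w' (hOV w' h) b
  -- the centre of a place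
  let cond : p.primesOver B → Place k M' Ω → Prop := fun q w' =>
    ∀ b : B, algebraMap B M' b ∈ w'.V.nonunits ↔ b ∈ q.1
  have huniq : ∀ w' q q', cond q w' → cond q' w' → q = q' := by
    intro w' q q' h h'
    ext b
    rw [← h b, ← h' b]
  have hex : ∀ w', Ov w' → ∃ q, cond q w' := by
    intro w' hw
    let χ : B →+* Ω := w'.res.comp ((algebraMap B M').codRestrict w'.V.toSubring (hIsB w' hw))
    have hχ : ∀ b, b ∈ RingHom.ker χ ↔ algebraMap B M' b ∈ w'.V.nonunits := by
      intro b
      rw [RingHom.mem_ker]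
      exact Fa.res_eq_zero_iff w' _
    have hprime : (RingHom.ker χ).IsPrime := RingHom.ker_isPrime χ
    have hle : p ≤ (RingHom.ker χ).under R := by
      intro x hx
      change algebraMap R B x ∈ RingHom.ker χ
      rw [RingHom.mem_ker]
      have h1 : χ (algebraMap R B x) = w.res x := hOR w' hw x.1 x.2
      rw [h1, Fa.res_eq_zero_iff]
      exact (hmemp x).1 hx
    have hlies : (RingHom.ker χ).LiesOver p := by
      refine ⟨hp.eq_of_le ?_ hle⟩
      exact Ideal.IsPrime.ne_top inferInstance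
    exact ⟨⟨RingHom.ker χ, hprime, hlies⟩, fun b => (hχ b).symm⟩
  have hbot : ∀ q : p.primesOver B, q.1 ≠ ⊥ := by
    intro q hq
    have h3 : b0 ∈ q.1 := by
      have h4 : π0 ∈ q.1.under R := by
        rw [← q.2.2.over, hpπ]
        exact Ideal.mem_span_singleton_self _
      exact h4
    rw [hq, Ideal.mem_bot] at h3
    exact hb0 h3
  let vq : p.primesOver B → HeightOneSpectrum B := fun q => ⟨q.1, q.2.1, hbot q⟩
  -- embeddings of the residue field over that of `w`
  have hqp : ∀ q : p.primesOver B, ∀ x ∈ p, algebraMap R B x ∈ q.1 := by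
    intro q x hx
    have h4 : x ∈ q.1.under R := by
      rw [← q.2.2.over]
      exact hx
    exact h4
  have hchar2 : CharZero (R ⧸ p) :=
    charZero_of_injective_algebraMap (algebraMap k (R ⧸ p)).injective
  have hlies : ∀ q : p.primesOver B, q.1.LiesOver p := fun q => q.2.2
  let iq : ∀ q : p.primesOver B, Field (B ⧸ q.1) := fun q =>
    have h1 := q.2.1
    have h2 := q.2.2
    have h3 : q.1.IsMaximal := Ideal.IsMaximal.of_liesOver_isMaximal q.1 p
    Ideal.Quotient.field q.1
  have hs1 : ∀ q : p.primesOver B, IsScalarTower k (R ⧸ p) (B ⧸ q.1) := fun q =>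
    IsScalarTower.of_algebraMap_eq fun a => rfl
  have hfinq : ∀ q : p.primesOver B, FiniteDimensional (R ⧸ p) (B ⧸ q.1) := fun q =>
    inferInstance
  let G : (Σ q : p.primesOver B, (B ⧸ q.1) →ₐ[R ⧸ p] Ω) → Place k M' Ω := fun x =>
    plc (vq x.1) (x.2.restrictScalars k) M'
  have hGc : ∀ x, cond x.1 (G x) := fun x => map_mem_nonunits_VV (vq x.1)
  have hGinj : Function.Injective G := by
    rintro ⟨q, φ⟩ ⟨q', φ'⟩ h
    have hq : q = q' := huniq (G ⟨q, φ⟩) q q' (hGc _) (by rw [h]; exact hGc _)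
    subst hq
    have h1 := plc_inj (E := M') (vq q) h
    have h2 : φ = φ' := AlgHom.ext fun y => DFunLike.congr_fun h1 y
    rw [h2]
  have hGov : ∀ x, Ov (G x) := by
    rintro ⟨q, φ⟩
    have hmem : ∀ a ∈ w.V, algebraMap M M' a ∈ (G ⟨q, φ⟩).V := fun a ha =>
      mem_VV (E := M') (vq q) (algebraMap R B ⟨a, ha⟩)
    have hnon : ∀ a ∈ w.V.nonunits, algebraMap M M' a ∈ (G ⟨q, φ⟩).V.nonunits := by
      intro a ha
      exact (hGc ⟨q, φ⟩ (algebraMap R B ⟨a, w.V.nonunits_subset ha⟩)).2
        (hqp q _ ((hmemp _).2 ha))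
    refine Place.ext' (SetLike.ext fun a => ⟨fun h => ?_, fun h => hmem a h⟩) fun a h h' => ?_
    · by_contra h1
      have h2 : a⁻¹ ∈ w.V.nonunits := (w.V.inv_mem_nonunits_iff).2 (Or.inr h1)
      have h3 := hnon _ h2
      rw [map_inv₀] at h3
      rcases ((G ⟨q, φ⟩).V.inv_mem_nonunits_iff).1 h3 with h4 | h4
      · rw [_root_.map_eq_zero] at h4
        rw [h4] at h1
        exact h1 w.V.zero_mem
      · exact h4 h
    · have h1 : (restr alg (G ⟨q, φ⟩)).res ⟨a, h⟩ = φ (Ideal.Quotient.mk q.1 (algebraMap R B ⟨a, h'⟩)) :=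
        rs_mk (E := M') (vq q) (φ.restrictScalars k) (algebraMap R B ⟨a, h'⟩) (mem_VV (vq q) _)
      rw [h1]
      have h2 := φ.commutes (Ideal.Quotient.mk p ⟨a, h'⟩)
      exact h2
  have hGsurj : ∀ w', Ov w' → ∃ x, G x = w' := by
    intro w' hw
    obtain ⟨q, hq⟩ := hex w' hw
    obtain ⟨φ', hφ'⟩ := plc_surj (vq q) w' (hIsB w' hw) hq
    have hcom : ∀ x : R, φ' (Ideal.Quotient.mk q.1 (algebraMap R B x)) = w.res x := by
      intro x
      have h1 := rs_mk (E := M') (vq q) φ' (algebraMap R B x) (mem_VV (vq q) _)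
      rw [← hOR w' hw x.1 x.2]
      refine h1.symm.trans ?_
      have key : ∀ (v v' : Place k M' Ω) (h : v = v') (y : M') (h1 : y ∈ v.V) (h2 : y ∈ v'.V),
          v.res ⟨y, h1⟩ = v'.res ⟨y, h2⟩ := by
        rintro v _ rfl y h1 h2
        rfl
      exact key _ _ hφ' _ _ _
    let φ : (B ⧸ q.1) →ₐ[R ⧸ p] Ω :=
      { toRingHom := (φ' : B ⧸ q.1 →+* Ω)
        commutes' := by
          intro r
          obtain ⟨x, rfl⟩ := Ideal.Quotient.mk_surjective r
          exact hcom x }
    refine ⟨⟨q, φ⟩, ?_⟩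
    have h3 : φ.restrictScalars k = φ' := AlgHom.ext fun y => rfl
    change plc (vq q) (φ.restrictScalars k) M' = w'
    rw [h3]
    exact hφ'
  refine ⟨Finset.univ.image G, fun w' => ?_, fun m hm => ?_⟩
  · rw [Finset.mem_image]
    constructor
    · rintro ⟨x, -, rfl⟩
      exact hGov x
    · intro h
      obtain ⟨x, hx⟩ := hGsurj w' h
      exact ⟨x, Finset.mem_univ _, hx⟩
  · have hram : ∀ x, m (G x) = (x.1.1.ramificationIdx R : ℤ) := by
      intro x
      have h4 := ord_plc (k := k) (vq x.1) (G x) rfl hb0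
      rw [hb0E] at h4
      have h5 := x.1.2.1
      have h6 := x.1.2.2
      rw [Ideal.IsDedekindDomain.ramificationIdx_eq_multiplicity p x.1.1 hpB0, hpB]
      exact (hm _ (Finset.mem_image_of_mem _ (Finset.mem_univ x))).unique rfl h4
    rw [Finset.sum_image fun x _ y _ h => hGinj h, Finset.sum_congr rfl fun x _ => hram x,
      Fintype.sum_sigma]
    simp only [Finset.sum_const, Finset.card_univ]
    rw [← hrank, ← hsum, Nat.cast_sum]
    refine Finset.sum_congr rfl fun q _ => ?_
    have h1 := q.2.1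
    have h2 := q.2.2
    have h3 : q.1.IsMaximal := Ideal.IsMaximal.of_liesOver_isMaximal q.1 p
    rw [Ideal.inertiaDeg_eq_of_isMaximal p q.1, AlgHom.card (R ⧸ p) (B ⧸ q.1) Ω, nsmul_eq_mul,
      Nat.cast_mul, mul_comm]

end ovr

end Qb
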